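import Mathlib

set_option autoImplicit false

/-!
# A union of two partial matchings has a proper two-colouring
-/

namespace Pool.Agent.R690.Pm

open Finset

variable {V : Type*} [Fintype V] [DecidableEq V]

theorem double_count {ι : Type*} [Fintype ι] (X Y : ι → V) (f : ι → ℕ) :
    ∑ z, ∑ i, ((if X i = z then 1 else 0) + if Y i = z then 1 else 0) * f i = 2 * ∑ i, f i := by
  rw [Finset.sum_comm, Finset.mul_sum]
  refine Finset.sum_congr rfl fun i _ => ?_
  rw [← Finset.sum_mul, Finset.sum_add_distrib, Finset.sum_ite_eq, Finset.sum_ite_eq]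
  simp

omit [Fintype V] in
theorem le_one_of {ι : Type*} [Fintype ι] (X Y : ι → V) (f : ι → ℕ) (hf : ∀ i, f i ≤ 1)
    (hXY : ∀ z, ∑ i, ((if X i = z then 1 else 0) + if Y i = z then 1 else 0) ≤ 1) (z : V) :
    ∑ i, ((if X i = z then 1 else 0) + if Y i = z then 1 else 0) * f i ≤ 1 := by
  refine le_trans (Finset.sum_le_sum fun i _ => ?_) (hXY z)
  exact mul_le_of_le_one_right (Nat.zero_le _) (hf i)

/-- A union of two partial matchings has a proper two-colouring. -/
theorem two_color' {ι κ : Type*} [Fintype ι] [Fintype κ] (X Y : ι → V) (X' Y' : κ → V)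
    (h : ∀ z, ∑ i, ((if X i = z then 1 else 0) + if Y i = z then 1 else 0) ≤ 1)
    (h' : ∀ z, ∑ i, ((if X' i = z then 1 else 0) + if Y' i = z then 1 else 0) ≤ 1) :
    ∃ s : V → ZMod 2, (∀ i, s (X i) + s (Y i) = 1) ∧ ∀ i, s (X' i) + s (Y' i) = 1 := by
  classical
  let A : (V → ZMod 2) →ₗ[ZMod 2] (ι ⊕ κ → ZMod 2) :=
    LinearMap.pi fun i => LinearMap.proj (R := ZMod 2) (φ := fun _ : V => ZMod 2) (Sum.elim X X' i) +
      LinearMap.proj (R := ZMod 2) (φ := fun _ : V => ZMod 2) (Sum.elim Y Y' i)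
  by_cases hm : (fun _ => 1) ∈ LinearMap.range A
  · obtain ⟨s, hs⟩ := hm
    refine ⟨s, fun i => ?_, fun i => ?_⟩
    · have := congrFun hs (Sum.inl i)
      simpa [A] using this
    · have := congrFun hs (Sum.inr i)
      simpa [A] using this
  exfalso
  obtain ⟨φ, hφ, hker⟩ := Submodule.exists_le_ker_of_notMem hm
  apply hφ
  set f : ι ⊕ κ → ZMod 2 := fun i => φ (Pi.single i 1) with hf
  have hφe : ∀ w, φ w = ∑ i, w i * f i := by
    intro w
    rw [LinearMap.pi_apply_eq_sum_univ φ w]
    refine Finset.sum_congr rfl fun i _ => ?_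
    rw [smul_eq_mul, hf]
    congr 2
    funext j
    rw [Pi.single_apply]
    simp only [eq_comm]
  have hz : ∀ z : V, ∑ i, A (Pi.single z 1) i * f i = 0 := by
    intro z
    rw [← hφe]
    exact hker ⟨_, rfl⟩
  have hA : ∀ z i, A (Pi.single z 1) i = (((if Sum.elim X X' i = z then 1 else 0) +
      if Sum.elim Y Y' i = z then 1 else 0 : ℕ) : ZMod 2) := by
    intro z i
    simp only [A, LinearMap.pi_apply, LinearMap.add_apply, LinearMap.proj_apply, Pi.single_apply]
    push_cast
    rfl
  have hval : ∀ i, f i = (((f i).val : ℕ) : ZMod 2) := fun i => (ZMod.natCast_zmod_val _).symm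
  have hle : ∀ i, (f i).val ≤ 1 := fun i => by
    have := ZMod.val_lt (f i); omega
  have heq : ∀ z, ∑ i : ι, ((if X i = z then 1 else 0) + if Y i = z then 1 else 0) *
      (f (Sum.inl i)).val = ∑ i : κ, ((if X' i = z then 1 else 0) + if Y' i = z then 1 else 0) *
      (f (Sum.inr i)).val := by
    intro z
    have h1 := hz z
    have h2 := le_one_of X Y (fun i => (f (Sum.inl i)).val) (fun i => hle _) h z
    have h3 := le_one_of X' Y' (fun i => (f (Sum.inr i)).val) (fun i => hle _) h' z
    rw [Fintype.sum_sum_type] at h1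
    simp only [hA, Sum.elim_inl, Sum.elim_inr] at h1
    have h4 : ((∑ i : ι, ((if X i = z then 1 else 0) + if Y i = z then 1 else 0) *
      (f (Sum.inl i)).val + ∑ i : κ, ((if X' i = z then 1 else 0) + if Y' i = z then 1 else 0) *
      (f (Sum.inr i)).val : ℕ) : ZMod 2) = 0 := by
      rw [Nat.cast_add, Nat.cast_sum, Nat.cast_sum, ← h1]
      congr 1
      · refine Finset.sum_congr rfl fun i _ => ?_
        rw [Nat.cast_mul, ← hval]
        rfl
      · refine Finset.sum_congr rfl fun i _ => ?_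
        rw [Nat.cast_mul, ← hval]
        rfl
    rw [ZMod.natCast_eq_zero_iff] at h4
    omega
  have h5 := double_count X Y (fun i => (f (Sum.inl i)).val)
  have h6 := double_count X' Y' (fun i => (f (Sum.inr i)).val)
  have h7 : ∑ i : ι, (f (Sum.inl i)).val = ∑ i : κ, (f (Sum.inr i)).val := by
    rw [Finset.sum_congr rfl fun z _ => heq z] at h5
    omega
  rw [hφe, Fintype.sum_sum_type]
  have h8 : ∀ i, (1 : ZMod 2) * f i = (((f i).val : ℕ) : ZMod 2) := fun i => by
    rw [one_mul]; exact hval i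
  simp only [h8]
  rw [← Nat.cast_sum, ← Nat.cast_sum, h7, ← Nat.cast_add, ← two_mul]
  rw [Nat.cast_mul]
  have : ((2 : ℕ) : ZMod 2) = 0 := by decide
  rw [this, zero_mul]

/-- The form used below. -/
theorem two_color (P Q : Finset ℕ) (x y x' y' : ℕ → V)
    (h : ∀ z, (P.filter (x · = z)).card + (P.filter (y · = z)).card ≤ 1)
    (h' : ∀ z, (Q.filter (x' · = z)).card + (Q.filter (y' · = z)).card ≤ 1) :
    ∃ s : V → ZMod 2, (∀ i ∈ P, s (x i) + s (y i) = 1) ∧ ∀ i ∈ Q, s (x' i) + s (y' i) = 1 := by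
  have key : ∀ (P : Finset ℕ) (x y : ℕ → V) (z : V),
      ∑ i : {i // i ∈ P}, ((if x i = z then 1 else 0) + if y i = z then 1 else 0) =
      (P.filter (x · = z)).card + (P.filter (y · = z)).card := by
    intro P x y z
    rw [Finset.sum_add_distrib, Finset.card_filter, Finset.card_filter]
    congr 1
    · exact Finset.sum_coe_sort P fun i => if x i = z then 1 else 0
    · exact Finset.sum_coe_sort P fun i => if y i = z then 1 else 0
  obtain ⟨s, h1, h2⟩ := two_color' (fun i : {i // i ∈ P} => x i) (fun i => y i)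
    (fun i : {i // i ∈ Q} => x' i) (fun i => y' i) (fun z => (key P x y z).trans_le (h z))
    (fun z => (key Q x' y' z).trans_le (h' z))
  exact ⟨s, fun i hi => h1 ⟨i, hi⟩, fun i hi => h2 ⟨i, hi⟩⟩

end Pool.Agent.R690.Pm
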