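import Pool.Agent.R690.Pm.Sbo
import Pool.Agent.R690.Pm.Color

set_option autoImplicit false

/-!
# Tuples of bases with the same sum are connected by symmetric exchanges
-/

namespace Pool.Agent.R690.Pm

open Finset

variable {V : Type*} [Fintype V] [DecidableEq V] {Bs : Set (V →₀ ℕ)} {k : ℕ}

theorem sum_two {i j : Fin k} (hij : i ≠ j) (f : Fin k → ℕ) :
    ∑ l, f l = f i + (f j + ∑ l ∈ (univ.erase i).erase j, f l) := by
  rw [Finset.add_sum_erase _ _ (Finset.mem_erase.2 ⟨hij.symm, mem_univ j⟩),
    Finset.add_sum_erase _ _ (mem_univ i)]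

theorem sum_rest {i j : Fin k} {f g : Fin k → ℕ} (h : ∀ l, l ≠ i → l ≠ j → f l = g l) :
    ∑ l ∈ (univ.erase i).erase j, f l = ∑ l ∈ (univ.erase i).erase j, g l := by
  refine Finset.sum_congr rfl fun l hl => ?_
  simp only [Finset.mem_erase, mem_univ, and_true] at hl
  exact h l hl.2 hl.1

/-- A symmetric exchange between two members of a tuple. -/
def Step (U U' : Fin k → Bs) : Prop := ∃ i j, i ≠ j ∧ ∃ ξ ρ,
  (U j).1 ξ < (U i).1 ξ ∧ (U i).1 ρ < (U j).1 ρ ∧
  (U' i).1 + Finsupp.single ξ 1 = (U i).1 + Finsupp.single ρ 1 ∧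
  (U' j).1 + Finsupp.single ρ 1 = (U j).1 + Finsupp.single ξ 1 ∧
  ∀ l, l ≠ i → l ≠ j → U' l = U l

/-- The tuple with two members replaced. -/
def upd (U : Fin k → Bs) (i j : Fin k) (a b : Bs) : Fin k → Bs :=
  Function.update (Function.update U i a) j b

theorem upd_i {U : Fin k → Bs} {i j : Fin k} (hij : i ≠ j) (a b : Bs) : upd U i j a b i = a := by
  rw [upd, Function.update_of_ne hij, Function.update_self]

theorem upd_j {U : Fin k → Bs} {i j : Fin k} (a b : Bs) : upd U i j a b j = b := by
  rw [upd, Function.update_self]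

theorem upd_l {U : Fin k → Bs} {i j l : Fin k} (hi : l ≠ i) (hj : l ≠ j) (a b : Bs) :
    upd U i j a b l = U l := by
  rw [upd, Function.update_of_ne hj, Function.update_of_ne hi]

theorem upd_self {U : Fin k → Bs} {i j : Fin k} (hij : i ≠ j) {a b : Bs} (ha : a = U i)
    (hb : b = U j) : upd U i j a b = U := by
  funext l
  by_cases hj : l = j
  · subst hj; rw [upd_j, hb]
  · by_cases hi : l = i
    · subst hi; rw [upd_i hij, ha]
    · rw [upd_l hi hj]

/-- The data of multiple symmetric exchanges. -/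
structure Data (u v : Bs) (P : Finset ℕ) (x y : ℕ → V) (w : Finset ℕ → Bs) : Prop where
  ne : ∀ t ∈ P, ∀ s ∈ P, x t ≠ y s
  tot : ∀ z, u.1 z + (P.filter (y · = z)).card = v.1 z + (P.filter (x · = z)).card
  ex : ∀ X ⊆ P, ∀ z, (w X).1 z + (X.filter (x · = z)).card = u.1 z + (X.filter (y · = z)).card

theorem SBO.data (h : SBO Bs) (u v : Bs) : ∃ P x y w, Data u v P x y w := by
  classical
  obtain ⟨P, x, y, h1, h2, h3⟩ := h u.1 u.2 v.1 v.2
  have h4 : ∀ X : Finset ℕ, ∃ w : Bs, X ⊆ P → ∀ z, w.1 z + (X.filter (x · = z)).card =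
      u.1 z + (X.filter (y · = z)).card := by
    intro X
    by_cases hX : X ⊆ P
    · obtain ⟨w, hw, hw'⟩ := h3 X hX
      exact ⟨⟨w, hw⟩, fun _ => hw'⟩
    · exact ⟨u, fun h => absurd h hX⟩
  choose w hw using h4
  exact ⟨P, x, y, w, h1, h2, hw⟩

namespace Data

variable {u v : Bs} {P : Finset ℕ} {x y : ℕ → V} {w : Finset ℕ → Bs}

omit [Fintype V] in
theorem card_sdiff_filter {X : Finset ℕ} (hX : X ⊆ P) (f : ℕ → V) (z : V) :
    ((P \ X).filter (f · = z)).card + (X.filter (f · = z)).card = (P.filter (f · = z)).card := by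
  rw [← Finset.card_union_of_disjoint, ← Finset.filter_union, Finset.sdiff_union_of_subset hX]
  exact Finset.disjoint_filter_filter Finset.sdiff_disjoint

omit [Fintype V] in
theorem compl (h : Data u v P x y w) {X : Finset ℕ} (hX : X ⊆ P) (z : V) :
    (w X).1 z + (w (P \ X)).1 z = u.1 z + v.1 z := by
  have h1 := h.ex X hX z
  have h2 := h.ex (P \ X) Finset.sdiff_subset z
  have h3 := h.tot z
  have h4 := card_sdiff_filter hX x z
  have h5 := card_sdiff_filter hX y z
  omega

omit [Fintype V] in
theorem zero_or (h : Data u v P x y w) (z : V) :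
    (P.filter (x · = z)).card = 0 ∨ (P.filter (y · = z)).card = 0 := by
  by_contra hcon
  push Not at hcon
  obtain ⟨h1, h2⟩ := hcon
  obtain ⟨t, ht⟩ := Finset.card_ne_zero.1 h1
  obtain ⟨s, hs⟩ := Finset.card_ne_zero.1 h2
  rw [Finset.mem_filter] at ht hs
  exact h.ne t ht.1 s hs.1 (ht.2.trans hs.2.symm)

omit [Fintype V] in
theorem pos_x (h : Data u v P x y w) {t : ℕ} (ht : t ∈ P) : v.1 (x t) < u.1 (x t) := by
  have h1 := h.tot (x t)
  have h2 : 0 < (P.filter (x · = x t)).card :=
    Finset.card_pos.2 ⟨t, Finset.mem_filter.2 ⟨ht, rfl⟩⟩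
  rcases h.zero_or (x t) with h3 | h3 <;> omega

omit [Fintype V] in
theorem pos_y (h : Data u v P x y w) {t : ℕ} (ht : t ∈ P) : u.1 (y t) < v.1 (y t) := by
  have h1 := h.tot (y t)
  have h2 : 0 < (P.filter (y · = y t)).card :=
    Finset.card_pos.2 ⟨t, Finset.mem_filter.2 ⟨ht, rfl⟩⟩
  rcases h.zero_or (y t) with h3 | h3 <;> omega

omit [Fintype V] in
/-- A single exchange on top of others. -/
theorem add_one (h : Data u v P x y w) {X : Finset ℕ} {t : ℕ} (ht : t ∈ P) (htX : t ∉ X)
    (hX : X ⊆ P) :
    (w (insert t X)).1 + Finsupp.single (x t) 1 = (w X).1 + Finsupp.single (y t) 1 ∧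
    (w (P \ insert t X)).1 + Finsupp.single (y t) 1 =
      (w (P \ X)).1 + Finsupp.single (x t) 1 := by
  have hX' : insert t X ⊆ P := Finset.insert_subset ht hX
  have key : ∀ z, (w (insert t X)).1 z + (if x t = z then 1 else 0) =
      (w X).1 z + if y t = z then 1 else 0 := by
    intro z
    have h1 := h.ex X hX z
    have h2 := h.ex _ hX' z
    have h3 : ∀ f : ℕ → V, ((insert t X).filter (f · = z)).card =
        (X.filter (f · = z)).card + if f t = z then 1 else 0 := by
      intro f
      rw [Finset.filter_insert]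
      split_ifs with hf
      · rw [Finset.card_insert_of_notMem (fun hm => htX (Finset.mem_filter.1 hm).1)]
      · rfl
    rw [h3 x, h3 y] at h2
    omega
  constructor
  · ext z
    rw [Finsupp.coe_add, Pi.add_apply, Finsupp.coe_add, Pi.add_apply, Finsupp.single_apply,
      Finsupp.single_apply]
    exact key z
  · ext z
    rw [Finsupp.coe_add, Pi.add_apply, Finsupp.coe_add, Pi.add_apply, Finsupp.single_apply,
      Finsupp.single_apply]
    have h1 := key z
    have h2 := h.compl hX z
    have h3 := h.compl hX' z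
    omega

end Data

/-- The balancing step. -/
theorem balance_step (hB : SBO Bs) (U : Fin k → Bs) {i j : Fin k} {z : V}
    (h : (U j).1 z + 2 ≤ (U i).1 z) : ∃ U', Step U U' ∧
      ∑ z, ∑ l, (U' l).1 z ^ 2 < ∑ z, ∑ l, (U l).1 z ^ 2 := by
  have hij : i ≠ j := by rintro rfl; omega
  obtain ⟨P, x, y, w, hd⟩ := hB.data (U i) (U j)
  have h1 : 0 < (P.filter (x · = z)).card := by
    have := hd.tot z; omega
  obtain ⟨t, ht⟩ := Finset.card_pos.1 h1
  rw [Finset.mem_filter] at ht
  obtain ⟨ht, rfl⟩ := ht
  have h2 := hd.add_one ht (Finset.notMem_empty t) (Finset.empty_subset P)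
  have h3 : (w ∅).1 = (U i).1 := by
    ext z
    have := hd.ex ∅ (Finset.empty_subset P) z
    simpa using this
  have h4 : (w (P \ ∅)).1 = (U j).1 := by
    ext z
    have := hd.compl (Finset.empty_subset P) z
    rw [h3] at this
    omega
  rw [h3, h4] at h2
  refine ⟨upd U i j (w (insert t ∅)) (w (P \ insert t ∅)), ⟨i, j, hij, x t, y t, hd.pos_x ht,
    hd.pos_y ht, ?_, ?_, fun l hi hj => upd_l hi hj _ _⟩, ?_⟩
  · rw [upd_i hij]; exact h2.1
  · rw [upd_j]; exact h2.2
  · have h5 : ∀ z', (w (insert t ∅)).1 z' + (if x t = z' then 1 else 0) =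
        (U i).1 z' + if y t = z' then 1 else 0 := by
      intro z'
      have := DFunLike.congr_fun h2.1 z'
      rwa [Finsupp.coe_add, Pi.add_apply, Finsupp.coe_add, Pi.add_apply, Finsupp.single_apply,
        Finsupp.single_apply] at this
    have h6 : ∀ z', (w (P \ insert t ∅)).1 z' + (if y t = z' then 1 else 0) =
        (U j).1 z' + if x t = z' then 1 else 0 := by
      intro z'
      have := DFunLike.congr_fun h2.2 z'
      rwa [Finsupp.coe_add, Pi.add_apply, Finsupp.coe_add, Pi.add_apply, Finsupp.single_apply,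
        Finsupp.single_apply] at this
    have hxy : y t ≠ x t := (hd.ne t ht t ht).symm
    have hy := hd.pos_y ht
    refine Finset.sum_lt_sum (fun z' _ => ?_) ⟨x t, mem_univ _, ?_⟩
    · rw [sum_two hij, sum_two hij (fun l => (U l).1 z' ^ 2),
        sum_rest (g := fun l => (U l).1 z' ^ 2) (fun l hi hj => by rw [upd_l hi hj]),
        upd_i hij, upd_j, ← add_assoc, ← add_assoc]
      refine Nat.add_le_add_right ?_ _
      have h7 := h5 z'
      have h8 := h6 z'
      by_cases hx : x t = z'
      · subst hx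
        rw [if_pos rfl, if_neg hxy] at h7 h8
        nlinarith
      · by_cases hyz : y t = z'
        · subst hyz
          rw [if_neg hx, if_pos rfl] at h7
          rw [if_pos rfl, if_neg hx] at h8
          nlinarith
        · rw [if_neg hx, if_neg hyz] at h7
          rw [if_neg hx, if_neg hyz] at h8
          rw [add_zero, add_zero] at h7 h8
          rw [h7, h8]
    · rw [sum_two hij, sum_two hij (fun l => (U l).1 (x t) ^ 2),
        sum_rest (g := fun l => (U l).1 (x t) ^ 2) (fun l hi hj => by rw [upd_l hi hj]),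
        upd_i hij, upd_j, ← add_assoc, ← add_assoc]
      refine Nat.add_lt_add_right ?_ _
      have h7 := h5 (x t)
      have h8 := h6 (x t)
      rw [if_pos rfl, if_neg hxy] at h7 h8
      nlinarith

omit [Fintype V] in
theorem Step.sum_eq {U U' : Fin k → Bs} (h : Step U U') (z : V) :
    ∑ l, (U' l).1 z = ∑ l, (U l).1 z := by
  obtain ⟨i, j, hij, ξ, ρ, -, -, h1, h2, h3⟩ := h
  rw [sum_two hij, sum_two hij (fun l => (U l).1 z),
    sum_rest (g := fun l => (U l).1 z) (fun l hi hj => by rw [h3 l hi hj])]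
  have h4 := DFunLike.congr_fun h1 z
  have h5 := DFunLike.congr_fun h2 z
  rw [Finsupp.coe_add, Pi.add_apply, Finsupp.coe_add, Pi.add_apply] at h4 h5
  omega

variable (r : Setoid (Fin k → Bs)) (hr : ∀ U U', Step U U' → r U U')

include hr in
/-- Every tuple can be balanced. -/
theorem exists_balanced (hB : SBO Bs) (U : Fin k → Bs) : ∃ U', r U U' ∧
    (∀ z, ∑ l, (U' l).1 z = ∑ l, (U l).1 z) ∧ ∀ i j z, (U' i).1 z ≤ (U' j).1 z + 1 := by
  induction hN : ∑ z, ∑ l, (U l).1 z ^ 2 using Nat.strong_induction_on generalizing U with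
  | _ N ih =>
    by_cases h : ∀ i j z, (U i).1 z ≤ (U j).1 z + 1
    · exact ⟨U, r.refl U, fun _ => rfl, h⟩
    · push Not at h
      obtain ⟨i, j, z, h⟩ := h
      obtain ⟨U', h1, h2⟩ := balance_step hB U (i := i) (j := j) (z := z) (by omega)
      obtain ⟨U'', h3, h4, h5⟩ := ih _ (hN ▸ h2) U' rfl
      exact ⟨U'', r.trans (hr _ _ h1) h3, fun z => (h4 z).trans (h1.sum_eq z), h5⟩

include hr in
/-- Exchange along a colouring. -/
theorem color_step {U : Fin k → Bs} {m : V → ℕ} (hm : ∀ l z, m z ≤ (U l).1 z ∧ (U l).1 z ≤ m z + 1)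
    {i j : Fin k} (hij : i ≠ j) {P : Finset ℕ} {x y : ℕ → V} {w : Finset ℕ → Bs}
    (hd : Data (U i) (U j) P x y w) {s : V → ZMod 2} (hs : ∀ t ∈ P, s (x t) + s (y t) = 1) :
    ∃ a b : Bs, r U (upd U i j a b) ∧ ∀ z, ((U i).1 z = (U j).1 z → a.1 z = (U i).1 z) ∧
      ((U i).1 z ≠ (U j).1 z → a.1 z = m z + (s z).val) ∧
      a.1 z + b.1 z = (U i).1 z + (U j).1 z := by
  have hcl : ∀ z, (P.filter (x · = z)).card ≤ 1 ∧ (P.filter (y · = z)).card ≤ 1 := by
    intro z
    have h1 := hd.tot z
    have h2 := hm i z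
    have h3 := hm j z
    rcases hd.zero_or z with h4 | h4 <;> omega
  have hall : ∀ X ⊆ P, r U (upd U i j (w X) (w (P \ X))) := by
    intro X
    induction X using Finset.induction_on with
    | empty =>
      intro hX
      have h3 : w ∅ = U i := by
        apply Subtype.ext
        ext z
        have := hd.ex ∅ hX z
        simpa using this
      have h4 : w (P \ ∅) = U j := by
        apply Subtype.ext
        ext z
        have := hd.compl hX z
        rw [h3] at this
        omega
      rw [upd_self hij h3 h4]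
    | insert t X htX ih =>
      intro hX
      have ht : t ∈ P := hX (Finset.mem_insert_self t X)
      have hX' : X ⊆ P := fun s hs => hX (Finset.mem_insert_of_mem hs)
      refine r.trans (ih hX') (hr _ _ ?_)
      have h1 := hd.add_one ht htX hX'
      have hnot : ∀ f : ℕ → V, (P.filter (f · = f t)).card ≤ 1 →
          (X.filter (f · = f t)).card = 0 := by
        intro f hf
        rw [Finset.card_eq_zero, Finset.filter_eq_empty_iff]
        intro s hs hst
        have h2 := Finset.card_le_one.1 hf s (Finset.mem_filter.2 ⟨hX' hs, hst⟩) t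
          (Finset.mem_filter.2 ⟨ht, rfl⟩)
        exact htX (h2 ▸ hs)
      have hx0 := hnot x (hcl _).1
      have hy0 := hnot y (hcl _).2
      have hx1 : (X.filter (y · = x t)).card = 0 := by
        rw [Finset.card_eq_zero, Finset.filter_eq_empty_iff]
        intro s hs hst
        exact hd.ne t ht s (hX' hs) hst.symm
      have hy1 : (X.filter (x · = y t)).card = 0 := by
        rw [Finset.card_eq_zero, Finset.filter_eq_empty_iff]
        intro s hs hst
        exact hd.ne s (hX' hs) t ht hst
      have e1 := hd.ex X hX' (x t)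
      have e2 := hd.ex X hX' (y t)
      have e3 := hd.compl hX' (x t)
      have e4 := hd.compl hX' (y t)
      have e5 := hd.pos_x ht
      have e6 := hd.pos_y ht
      refine ⟨i, j, hij, x t, y t, ?_, ?_, ?_, ?_, fun l hi hj => ?_⟩
      · rw [upd_i hij, upd_j]; omega
      · rw [upd_i hij, upd_j]; omega
      · rw [upd_i hij, upd_i hij]; exact h1.1
      · rw [upd_j, upd_j]; exact h1.2
      · rw [upd_l hi hj, upd_l hi hj]
  refine ⟨_, _, hall (P.filter fun t => s (x t) = 0) (Finset.filter_subset _ _), fun z => ?_⟩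
  have hX : (P.filter fun t => s (x t) = 0) ⊆ P := Finset.filter_subset _ _
  have e1 := hd.ex _ hX z
  have e2 := hd.tot z
  have hle : ∀ f : ℕ → V, (((P.filter fun t => s (x t) = 0)).filter (f · = z)).card ≤
      (P.filter (f · = z)).card := fun f => Finset.card_le_card (Finset.filter_subset_filter _ hX)
  have hlex := hle x
  have hley := hle y
  refine ⟨fun h => ?_, fun h => ?_, hd.compl hX z⟩
  · rcases hd.zero_or z with h4 | h4 <;> omega
  · have hval : ∀ c : ZMod 2, c.val = 0 ∧ c = 0 ∨ c.val = 1 ∧ c = 1 := by decide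
    have h2 := hm i z
    have h3 := hm j z
    rcases hd.zero_or z with h4 | h4
    · -- `y`-vertex
      have h5 : 0 < (P.filter (y · = z)).card := by omega
      obtain ⟨t, ht⟩ := Finset.card_pos.1 h5
      rw [Finset.mem_filter] at ht
      obtain ⟨ht, rfl⟩ := ht
      have h6 := hs t ht
      have h7 : (((P.filter fun t => s (x t) = 0)).filter (y · = y t)).card = (s (y t)).val := by
        rcases hval (s (y t)) with ⟨h8, h9⟩ | ⟨h8, h9⟩
        · rw [h8, Finset.card_eq_zero, Finset.filter_eq_empty_iff]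
          intro q hq hqt
          rw [Finset.mem_filter] at hq
          have h10 := hs q hq.1
          rw [hq.2, hqt, h9] at h10
          exact absurd h10 (by decide)
        · rw [h8]
          apply le_antisymm
          · have := (hcl (y t)).2; omega
          · rw [Nat.succ_le_iff, Finset.card_pos]
            refine ⟨t, Finset.mem_filter.2 ⟨Finset.mem_filter.2 ⟨ht, ?_⟩, rfl⟩⟩
            rw [h9] at h6
            have : s (x t) = s (x t) + 1 - 1 := by ring
            rw [this, h6]; decide
      omega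
    · have h5 : 0 < (P.filter (x · = z)).card := by omega
      obtain ⟨t, ht⟩ := Finset.card_pos.1 h5
      rw [Finset.mem_filter] at ht
      obtain ⟨ht, rfl⟩ := ht
      have h7 : (((P.filter fun t => s (x t) = 0)).filter (x · = x t)).card + (s (x t)).val = 1 := by
        rcases hval (s (x t)) with ⟨h8, h9⟩ | ⟨h8, h9⟩
        · rw [h8]
          apply le_antisymm
          · have := (hcl (x t)).1; omega
          · rw [add_zero, Nat.succ_le_iff, Finset.card_pos]
            exact ⟨t, Finset.mem_filter.2 ⟨Finset.mem_filter.2 ⟨ht, h9⟩, rfl⟩⟩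
        · rw [h8, Nat.add_eq_right, Finset.card_eq_zero, Finset.filter_eq_empty_iff]
          intro q hq hqt
          rw [Finset.mem_filter] at hq
          rw [hqt, h9] at hq
          exact absurd hq.2 (by decide)
      omega

end Pool.Agent.R690.Pm
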