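import Pool.Agent.R690.Pm.Conn

set_option autoImplicit false
set_option linter.unusedSectionVars false

/-!
# Tuples of bases with the same sum are connected by symmetric exchanges, continued
-/

namespace Pool.Agent.R690.Pm

open Finset

variable {V : Type*} [Fintype V] [DecidableEq V] {Bs : Set (V →₀ ℕ)} {k : ℕ}

/-- The distance of two tuples. -/
def dst (U W : Fin k → Bs) : ℕ :=
  ∑ z, ∑ l, (((U l).1 z - (W l).1 z) + ((W l).1 z - (U l).1 z))

theorem num_le {m s u1 u2 w1 w2 a b a' b' R : ℕ} (h1 : m ≤ u1 ∧ u1 ≤ m + 1)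
    (h2 : m ≤ u2 ∧ u2 ≤ m + 1) (h3 : m ≤ w1 ∧ w1 ≤ m + 1) (h4 : m ≤ w2 ∧ w2 ≤ m + 1)
    (h5 : s = 0 ∨ s = 1)
    (hU : (u1 = u2 ∧ a = u1 ∧ b = u2) ∨ (u1 ≠ u2 ∧ a = m + s ∧ b = m + (1 - s)))
    (hW : (w1 = w2 ∧ a' = w1 ∧ b' = w2) ∨ (w1 ≠ w2 ∧ a' = m + s ∧ b' = m + (1 - s))) :
    (a - a') + (a' - a) + ((b - b') + (b' - b) + R) ≤
      (u1 - w1) + (w1 - u1) + ((u2 - w2) + (w2 - u2) + R) ∧
    (w1 < u1 → u2 < w2 → (a - a') + (a' - a) + ((b - b') + (b' - b) + R) <
      (u1 - w1) + (w1 - u1) + ((u2 - w2) + (w2 - u2) + R)) := by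
  have h1' : u1 = m ∨ u1 = m + 1 := by omega
  have h2' : u2 = m ∨ u2 = m + 1 := by omega
  have h3' : w1 = m ∨ w1 = m + 1 := by omega
  have h4' : w2 = m ∨ w2 = m + 1 := by omega
  clear h1 h2 h3 h4
  rcases hU with ⟨e1, e2, e3⟩ | ⟨e1, e2, e3⟩ <;> rcases hW with ⟨f1, f2, f3⟩ | ⟨f1, f2, f3⟩ <;>
    subst e2 e3 f2 f3 <;> rcases h1' with rfl | rfl <;> rcases h2' with rfl | rfl <;>
    rcases h3' with rfl | rfl <;> rcases h4' with rfl | rfl <;> rcases h5 with rfl | rfl <;>
    first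
    | omega
    | (constructor <;> intros <;> omega)

variable (r : Setoid (Fin k → Bs)) (hr : ∀ U U', Step U U' → r U U')

include hr in
/-- The improvement step. -/
theorem improve (hB : SBO Bs) {U W : Fin k → Bs} {m : V → ℕ}
    (hU : ∀ l z, m z ≤ (U l).1 z ∧ (U l).1 z ≤ m z + 1)
    (hW : ∀ l z, m z ≤ (W l).1 z ∧ (W l).1 z ≤ m z + 1)
    (hs : ∀ z, ∑ l, (U l).1 z = ∑ l, (W l).1 z) (hne : U ≠ W) :
    ∃ U' W', r U U' ∧ r W W' ∧ (∀ l z, m z ≤ (U' l).1 z ∧ (U' l).1 z ≤ m z + 1) ∧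
      (∀ l z, m z ≤ (W' l).1 z ∧ (W' l).1 z ≤ m z + 1) ∧
      (∀ z, ∑ l, (U' l).1 z = ∑ l, (W' l).1 z) ∧ dst U' W' < dst U W := by
  -- find the place
  obtain ⟨z0, i, hi⟩ : ∃ z0 i, (W i).1 z0 < (U i).1 z0 := by
    by_contra h
    push Not at h
    apply hne
    funext l
    apply Subtype.ext
    ext z
    have h1 := (Finset.sum_eq_sum_iff_of_le (s := univ) fun l _ => h z l).1 (hs z)
    exact h1 l (mem_univ _)
  obtain ⟨j, hj⟩ : ∃ j, (U j).1 z0 < (W j).1 z0 := by
    by_contra h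
    push Not at h
    have := Finset.sum_lt_sum (s := univ) (f := fun l => (W l).1 z0) (g := fun l => (U l).1 z0)
      (fun l _ => h l) ⟨i, mem_univ _, hi⟩
    have := hs z0
    omega
  have hij : i ≠ j := by rintro rfl; omega
  obtain ⟨P, x, y, w, hd⟩ := hB.data (U i) (U j)
  obtain ⟨Q, x', y', w', hd'⟩ := hB.data (W i) (W j)
  obtain ⟨s, hs1, hs2⟩ := two_color P Q x y x' y' (by
    intro z
    have h1 := hd.tot z
    have h2 := hU i z
    have h3 := hU j z
    rcases hd.zero_or z with h4 | h4 <;> omega) (by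
    intro z
    have h1 := hd'.tot z
    have h2 := hW i z
    have h3 := hW j z
    rcases hd'.zero_or z with h4 | h4 <;> omega)
  obtain ⟨a, b, h1, h2⟩ := color_step r hr hU hij hd hs1
  obtain ⟨a', b', h1', h2'⟩ := color_step r hr hW hij hd' hs2
  have hval : ∀ z, (s z).val = 0 ∨ (s z).val = 1 := by
    intro z
    have := ZMod.val_lt (s z)
    omega
  have cU : ∀ z, ((U i).1 z = (U j).1 z ∧ a.1 z = (U i).1 z ∧ b.1 z = (U j).1 z) ∨
      ((U i).1 z ≠ (U j).1 z ∧ a.1 z = m z + (s z).val ∧ b.1 z = m z + (1 - (s z).val)) := by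
    intro z
    obtain ⟨e1, e2, e3⟩ := h2 z
    have e4 := hU i z
    have e5 := hU j z
    have e6 := hval z
    by_cases h : (U i).1 z = (U j).1 z
    · have := e1 h
      exact Or.inl ⟨h, this, by omega⟩
    · have := e2 h
      exact Or.inr ⟨h, this, by omega⟩
  have cW : ∀ z, ((W i).1 z = (W j).1 z ∧ a'.1 z = (W i).1 z ∧ b'.1 z = (W j).1 z) ∨
      ((W i).1 z ≠ (W j).1 z ∧ a'.1 z = m z + (s z).val ∧ b'.1 z = m z + (1 - (s z).val)) := by
    intro z
    obtain ⟨e1, e2, e3⟩ := h2' z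
    have e4 := hW i z
    have e5 := hW j z
    have e6 := hval z
    by_cases h : (W i).1 z = (W j).1 z
    · have := e1 h
      exact Or.inl ⟨h, this, by omega⟩
    · have := e2 h
      exact Or.inr ⟨h, this, by omega⟩
  refine ⟨_, _, h1, h1', ?_, ?_, ?_, ?_⟩
  · intro l z
    have e4 := hU i z
    have e5 := hU j z
    have e6 := hval z
    by_cases hj : l = j
    · subst hj
      rw [upd_j]
      rcases cU z with h | h <;> omega
    · by_cases hi : l = i
      · subst hi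
        rw [upd_i hij]
        rcases cU z with h | h <;> omega
      · rw [upd_l hi hj]; exact hU l z
  · intro l z
    have e4 := hW i z
    have e5 := hW j z
    have e6 := hval z
    by_cases hj : l = j
    · subst hj
      rw [upd_j]
      rcases cW z with h | h <;> omega
    · by_cases hi : l = i
      · subst hi
        rw [upd_i hij]
        rcases cW z with h | h <;> omega
      · rw [upd_l hi hj]; exact hW l z
  · intro z
    have e1 := hs z
    rw [sum_two hij, sum_two hij (fun l => (W l).1 z)] at e1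
    rw [sum_two hij, sum_two hij (fun l => (upd W i j a' b' l).1 z),
      sum_rest (g := fun l => (U l).1 z) (fun l hi hj => by rw [upd_l hi hj]),
      sum_rest (f := fun l => (upd W i j a' b' l).1 z) (g := fun l => (W l).1 z)
        (fun l hi hj => by rw [upd_l hi hj]), upd_i hij, upd_i hij, upd_j, upd_j]
    have e2 := (h2 z).2.2
    have e3 := (h2' z).2.2
    omega
  · have hrest : ∀ z, ∑ l ∈ (univ.erase i).erase j,
        (((upd U i j a b l).1 z - (upd W i j a' b' l).1 z) +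
          ((upd W i j a' b' l).1 z - (upd U i j a b l).1 z)) =
        ∑ l ∈ (univ.erase i).erase j, (((U l).1 z - (W l).1 z) + ((W l).1 z - (U l).1 z)) := by
      intro z
      refine sum_rest fun l hi hj => ?_
      rw [upd_l hi hj, upd_l hi hj]
    rw [dst, dst]
    refine Finset.sum_lt_sum (fun z _ => ?_) ⟨z0, mem_univ _, ?_⟩
    · rw [sum_two hij, sum_two hij (fun l => (((U l).1 z - (W l).1 z) + ((W l).1 z - (U l).1 z))),
        hrest z, upd_i hij, upd_i hij, upd_j, upd_j]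
      exact (num_le (hU i z) (hU j z) (hW i z) (hW j z) (hval z) (cU z) (cW z)).1
    · rw [sum_two hij, sum_two hij (fun l => (((U l).1 z0 - (W l).1 z0) + ((W l).1 z0 - (U l).1 z0))),
        hrest z0, upd_i hij, upd_i hij, upd_j, upd_j]
      exact (num_le (hU i z0) (hU j z0) (hW i z0) (hW j z0) (hval z0) (cU z0) (cW z0)).2 hi hj

include hr in
theorem conn_balanced (hB : SBO Bs) {U W : Fin k → Bs} {m : V → ℕ}
    (hU : ∀ l z, m z ≤ (U l).1 z ∧ (U l).1 z ≤ m z + 1)
    (hW : ∀ l z, m z ≤ (W l).1 z ∧ (W l).1 z ≤ m z + 1)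
    (hs : ∀ z, ∑ l, (U l).1 z = ∑ l, (W l).1 z) : r U W := by
  induction hN : dst U W using Nat.strong_induction_on generalizing U W with
  | _ N ih =>
    by_cases h : U = W
    · rw [h]
    · obtain ⟨U', W', h1, h2, h3, h4, h5, h6⟩ := improve r hr hB hU hW hs h
      exact r.trans h1 (r.trans (ih _ (hN ▸ h6) h3 h4 h5 rfl) (r.symm h2))

/-- The floor and ceiling of the average. -/
theorem floor_bounds {U : Fin k → Bs} (h : ∀ i j z, (U i).1 z ≤ (U j).1 z + 1) (l : Fin k) (z : V) :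
    (∑ i, (U i).1 z) / k ≤ (U l).1 z ∧ (U l).1 z ≤ (∑ i, (U i).1 z) / k + 1 := by
  have hk : 0 < k := l.pos
  constructor
  · by_contra hcon
    push Not at hcon
    have h1 : ∑ i, (U i).1 z < ∑ _i : Fin k, (∑ i, (U i).1 z) / k := by
      refine Finset.sum_lt_sum (fun i _ => ?_) ⟨l, mem_univ _, hcon⟩
      have := h i l z; omega
    rw [Finset.sum_const, Finset.card_univ, Fintype.card_fin, smul_eq_mul] at h1
    have := Nat.mul_div_le (∑ i, (U i).1 z) k
    omega
  · by_contra hcon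
    push Not at hcon
    have h1 : ∑ _i : Fin k, ((∑ i, (U i).1 z) / k + 1) < ∑ i, (U i).1 z := by
      refine Finset.sum_lt_sum (fun i _ => ?_) ⟨l, mem_univ _, hcon⟩
      have := h l i z; omega
    rw [Finset.sum_const, Finset.card_univ, Fintype.card_fin, smul_eq_mul] at h1
    have := Nat.lt_mul_div_succ (∑ i, (U i).1 z) hk
    omega

include hr in
/-- Tuples of bases with the same sum are connected by symmetric exchanges. -/
theorem connected (hB : SBO Bs) {U W : Fin k → Bs}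
    (hs : ∀ z, ∑ l, (U l).1 z = ∑ l, (W l).1 z) : r U W := by
  obtain ⟨U', h1, h2, h3⟩ := exists_balanced r hr hB U
  obtain ⟨W', h4, h5, h6⟩ := exists_balanced r hr hB W
  refine r.trans h1 (r.trans ?_ (r.symm h4))
  have h7 : ∀ z, ∑ l, (U' l).1 z = ∑ l, (W' l).1 z := fun z => by rw [h2, h5, hs]
  refine conn_balanced r hr hB (m := fun z => (∑ i, (U' i).1 z) / k) (floor_bounds h3) ?_ h7
  intro l z
  have := floor_bounds h6 l z
  rwa [← h7] at this

end Pool.Agent.R690.Pm
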