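import Mathlib

set_option autoImplicit false

/-!
# Strong base orderability of the bounded maximal sums of edges
-/

namespace Pool.Agent.R690.Pm

open Finset

variable {V : Type*} [Fintype V] [DecidableEq V]

/-- A pair of sums of edges whose difference has norm at most two. -/
def Tr (E : AddSubmonoid (V →₀ ℕ)) (R B : V →₀ ℕ) : Prop :=
  R ∈ E ∧ B ∈ E ∧ ∑ z, |(R z : ℤ) - B z| ≤ 2

/-- A decomposition of a pair into such pairs. -/
def Dec (E : AddSubmonoid (V →₀ ℕ)) (u v : V →₀ ℕ) (P : Finset ℕ) (R B : ℕ → V →₀ ℕ) : Prop :=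
  (∀ t ∈ P, Tr E (R t) (B t)) ∧ ∑ t ∈ P, R t = u ∧ ∑ t ∈ P, B t = v

theorem Dec.add {E : AddSubmonoid (V →₀ ℕ)} {u v : V →₀ ℕ} {P : Finset ℕ} {R B : ℕ → V →₀ ℕ}
    (h : Dec E u v P R B) {r b : V →₀ ℕ} (hrb : Tr E r b) :
    ∃ P R B, Dec E (r + u) (b + v) P R B := by
  obtain ⟨t, ht⟩ := Infinite.exists_notMem_finset P
  have hne : ∀ s ∈ P, s ≠ t := fun s hs h => ht (h ▸ hs)
  refine ⟨insert t P, Function.update R t r, Function.update B t b, ?_, ?_, ?_⟩
  · intro s hs
    rcases Finset.mem_insert.1 hs with rfl | hs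
    · rw [Function.update_self, Function.update_self]; exact hrb
    · rw [Function.update_of_ne (hne s hs), Function.update_of_ne (hne s hs)]; exact h.1 s hs
  · rw [Finset.sum_insert ht, Function.update_self, Finset.sum_update_of_notMem ht, h.2.1]
  · rw [Finset.sum_insert ht, Function.update_self, Finset.sum_update_of_notMem ht, h.2.2]

theorem exists_dec {S : Set (V →₀ ℕ)} (hS : ∀ e ∈ S, ∑ z, e z = 2) {u v : V →₀ ℕ}
    (hu : u ∈ AddSubmonoid.closure S) (hv : v ∈ AddSubmonoid.closure S) :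
    ∃ P R B, Dec (AddSubmonoid.closure S) u v P R B := by
  have h1 : ∀ v' u', (∃ P R B, Dec (AddSubmonoid.closure S) u' v' P R B) →
      ∃ P R B, Dec (AddSubmonoid.closure S) (u + u') v' P R B := by
    induction hu using AddSubmonoid.closure_induction with
    | mem e he =>
      rintro v' u' ⟨P, R, B, h⟩
      have := h.add (r := e) (b := 0) ⟨AddSubmonoid.subset_closure he, AddSubmonoid.zero_mem _, by
        simp only [Finsupp.coe_zero, Pi.zero_apply, Nat.cast_zero, sub_zero, Nat.abs_cast]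
        exact_mod_cast (hS e he).le⟩
      rwa [zero_add] at this
    | zero =>
      intro v' u' h
      rwa [zero_add]
    | add a b _ _ ha hb =>
      intro v' u' h
      rw [add_assoc]
      exact ha _ _ (hb _ _ h)
  have h2 : ∀ v' u', (∃ P R B, Dec (AddSubmonoid.closure S) u' v' P R B) →
      ∃ P R B, Dec (AddSubmonoid.closure S) u' (v + v') P R B := by
    clear h1
    induction hv using AddSubmonoid.closure_induction with
    | mem e he =>
      rintro v' u' ⟨P, R, B, h⟩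
      have := h.add (r := 0) (b := e) ⟨AddSubmonoid.zero_mem _, AddSubmonoid.subset_closure he, by
        simp only [Finsupp.coe_zero, Pi.zero_apply, Nat.cast_zero, zero_sub, abs_neg, Nat.abs_cast]
        exact_mod_cast (hS e he).le⟩
      rwa [zero_add] at this
    | zero =>
      intro v' u' h
      rwa [zero_add]
    | add a b _ _ ha hb =>
      intro v' u' h
      rw [add_assoc]
      exact ha _ _ (hb _ _ h)
  have h3 := h1 0 0 ⟨∅, fun _ => 0, fun _ => 0, by simp [Dec]⟩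
  rw [add_zero] at h3
  have h4 := h2 0 u h3
  rwa [add_zero] at h4

theorem abs_add_le_sub {a b : ℤ} (h : 0 < a ∧ b < 0) : |a + b| ≤ |a| + |b| - 2 := by
  rw [abs_of_pos h.1, abs_of_neg h.2]
  rcases abs_cases (a + b) with h1 | h1 <;> omega

theorem Tr.merge {E : AddSubmonoid (V →₀ ℕ)} {R B R' B' : V →₀ ℕ} (h : Tr E R B)
    (h' : Tr E R' B') {z : V} (hz : B z < R z) (hz' : R' z < B' z) : Tr E (R + R') (B + B') := by
  refine ⟨E.add_mem h.1 h'.1, E.add_mem h.2.1 h'.2.1, ?_⟩
  have e : ∀ w, (((R + R') w : ℕ) : ℤ) - ((B + B') w : ℕ) = ((R w : ℤ) - B w) + ((R' w : ℤ) - B' w) := by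
    intro w
    rw [Finsupp.coe_add, Pi.add_apply, Finsupp.coe_add, Pi.add_apply]
    push_cast; ring
  simp only [e]
  have h1 := h.2.2
  have h2 := h'.2.2
  rw [← Finset.add_sum_erase _ _ (mem_univ z)] at h1 h2 ⊢
  have h3 := abs_add_le_sub (a := (R z : ℤ) - B z) (b := (R' z : ℤ) - B' z) ⟨by omega, by omega⟩
  have h4 : ∑ w ∈ univ.erase z, |((R w : ℤ) - B w) + ((R' w : ℤ) - B' w)| ≤
      ∑ w ∈ univ.erase z, |(R w : ℤ) - B w| + ∑ w ∈ univ.erase z, |(R' w : ℤ) - B' w| := by
    rw [← Finset.sum_add_distrib]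
    exact Finset.sum_le_sum fun w _ => abs_add_le _ _
  omega

theorem sum_merge (P : Finset ℕ) (R : ℕ → V →₀ ℕ) {t s : ℕ} (ht : t ∈ P) (hs : s ∈ P)
    (hts : t ≠ s) : ∑ i ∈ P.erase s, Function.update R t (R t + R s) i = ∑ i ∈ P, R i := by
  have h1 : t ∈ P.erase s := Finset.mem_erase.2 ⟨hts, ht⟩
  rw [Finset.sum_update_of_mem h1, ← Finset.add_sum_erase _ _ hs, ← Finset.add_sum_erase _ _ h1,
    Finset.sdiff_singleton_eq_erase]
  abel

theorem Dec.merge {E : AddSubmonoid (V →₀ ℕ)} {u v : V →₀ ℕ} {P : Finset ℕ} {R B : ℕ → V →₀ ℕ}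
    (h : Dec E u v P R B) {t s : ℕ} (ht : t ∈ P) (hs : s ∈ P) {z : V} (hz : B t z < R t z)
    (hz' : R s z < B s z) : ∃ P' R' B', Dec E u v P' R' B' ∧ P'.card < P.card := by
  have hts : t ≠ s := by rintro rfl; omega
  refine ⟨P.erase s, Function.update R t (R t + R s), Function.update B t (B t + B s),
    ⟨?_, ?_, ?_⟩, Finset.card_erase_lt_of_mem hs⟩
  · intro i hi
    by_cases hit : i = t
    · subst hit
      rw [Function.update_self, Function.update_self]
      exact (h.1 i ht).merge (h.1 s hs) hz hz'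
    · rw [Function.update_of_ne hit, Function.update_of_ne hit]
      exact h.1 i (Finset.mem_of_mem_erase hi)
  · rw [sum_merge P R ht hs hts, h.2.1]
  · rw [sum_merge P B ht hs hts, h.2.2]

/-- There is a sign-consistent decomposition. -/
theorem exists_dec' {S : Set (V →₀ ℕ)} (hS : ∀ e ∈ S, ∑ z, e z = 2) {u v : V →₀ ℕ}
    (hu : u ∈ AddSubmonoid.closure S) (hv : v ∈ AddSubmonoid.closure S) :
    ∃ P R B, Dec (AddSubmonoid.closure S) u v P R B ∧
      ∀ t ∈ P, ∀ s ∈ P, ∀ z, ¬ (B t z < R t z ∧ R s z < B s z) := by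
  classical
  have h1 : ∃ m : ℕ, ∃ P R B, Dec (AddSubmonoid.closure S) u v P R B ∧ P.card = m := by
    obtain ⟨P, R, B, h⟩ := exists_dec hS hu hv
    exact ⟨P.card, P, R, B, h, rfl⟩
  obtain ⟨P, R, B, h2, h3⟩ := Nat.find_spec h1
  refine ⟨P, R, B, h2, ?_⟩
  rintro t ht s hs z ⟨hz, hz'⟩
  obtain ⟨P', R', B', h4, h5⟩ := h2.merge ht hs hz hz'
  rw [h3] at h5
  exact Nat.find_min h1 h5 ⟨P', R', B', h4, rfl⟩

/-- Multiple symmetric exchanges. -/
def SBO (Bs : Set (V →₀ ℕ)) : Prop := ∀ u ∈ Bs, ∀ v ∈ Bs, ∃ (P : Finset ℕ) (x y : ℕ → V),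
  (∀ t ∈ P, ∀ s ∈ P, x t ≠ y s) ∧
  (∀ z, u z + (P.filter (y · = z)).card = v z + (P.filter (x · = z)).card) ∧
  ∀ X ⊆ P, ∃ w ∈ Bs, ∀ z, w z + (X.filter (x · = z)).card = u z + (X.filter (y · = z)).card

/-- The shape of a balanced difference. -/
theorem shape {R B : V →₀ ℕ} (h1 : ∑ z, |(R z : ℤ) - B z| ≤ 2) (h2 : ∑ z, R z = ∑ z, B z)
    (h3 : R ≠ B) : ∃ x y, ∀ z, (R z : ℤ) - B z = (if x = z then 1 else 0) - if y = z then 1 else 0 := by
  have h4 : ∑ z, ((R z : ℤ) - B z) = 0 := by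
    rw [Finset.sum_sub_distrib]
    have : (∑ z, (R z : ℤ)) = ∑ z, (B z : ℤ) := by exact_mod_cast h2
    omega
  obtain ⟨z0, hz0⟩ : ∃ z, R z ≠ B z := by
    by_contra h
    push Not at h
    exact h3 (Finsupp.ext h)
  have h5 : ∃ i ∈ univ, (0 : ℤ) < (R i : ℤ) - B i := by
    by_contra h
    push Not at h
    have := (Finset.sum_eq_zero_iff_of_nonpos h).1 h4 z0 (mem_univ _)
    omega
  have h6 : ∃ i ∈ univ, (R i : ℤ) - B i < 0 := by
    by_contra h
    push Not at h
    have := (Finset.sum_eq_zero_iff_of_nonneg h).1 h4 z0 (mem_univ _)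
    omega
  obtain ⟨x, -, hx⟩ := h5
  obtain ⟨y, -, hy⟩ := h6
  have hxy : y ≠ x := by rintro rfl; omega
  refine ⟨x, y, ?_⟩
  rw [← Finset.add_sum_erase _ _ (mem_univ x),
    ← Finset.add_sum_erase _ _ (Finset.mem_erase.2 ⟨hxy, mem_univ y⟩), abs_of_pos hx,
    abs_of_neg hy] at h1
  have h7 : ∀ w ∈ (univ.erase x).erase y, (0 : ℤ) ≤ |(R w : ℤ) - B w| := fun w _ => abs_nonneg _
  have h8 := Finset.sum_nonneg h7
  have h9 : ∑ w ∈ (univ.erase x).erase y, |(R w : ℤ) - B w| = 0 := by omega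
  rw [Finset.sum_eq_zero_iff_of_nonneg h7] at h9
  intro z
  by_cases hzx : x = z
  · subst hzx
    rw [if_pos rfl, if_neg hxy]; omega
  · by_cases hzy : y = z
    · subst hzy
      rw [if_neg hzx, if_pos rfl]; omega
    · rw [if_neg hzx, if_neg hzy]
      have := h9 z (by simp only [Finset.mem_erase, mem_univ, and_true]; exact ⟨Ne.symm hzy, Ne.symm hzx⟩)
      rw [abs_eq_zero] at this
      omega

/-- The bounded maximal sums of edges. -/
def Bas (E : AddSubmonoid (V →₀ ℕ)) (c : V → ℕ) (D : ℕ) : Set (V →₀ ℕ) :=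
  {w | w ∈ E ∧ (∀ z, w z ≤ c z) ∧ ∑ z, w z = D}

/-- Strong base orderability. -/
theorem sbo [Nonempty V] {S : Set (V →₀ ℕ)} (hS : ∀ e ∈ S, ∑ z, e z = 2) (c : V → ℕ) (D : ℕ)
    (hD : ∀ w ∈ AddSubmonoid.closure S, (∀ z, w z ≤ c z) → ∑ z, w z ≤ D) :
    SBO (Bas (AddSubmonoid.closure S) c D) := by
  classical
  rintro u ⟨hu, huc, huD⟩ v ⟨hv, hvc, hvD⟩
  obtain ⟨P, R, B, hdec, hcon⟩ := exists_dec' hS hu hv
  have hRz : ∀ z, ∑ t ∈ P, R t z = u z := by
    intro z
    rw [← hdec.2.1, Finsupp.coe_finsetSum, Finset.sum_apply]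
  have hBz : ∀ z, ∑ t ∈ P, B t z = v z := by
    intro z
    rw [← hdec.2.2, Finsupp.coe_finsetSum, Finset.sum_apply]
  -- the exchanged vectors
  set W : Finset ℕ → V →₀ ℕ := fun X => ∑ t ∈ P, if t ∈ X then B t else R t with hW
  have hWz : ∀ X z, W X z = ∑ t ∈ P, if t ∈ X then B t z else R t z := by
    intro X z
    rw [hW, Finsupp.coe_finsetSum, Finset.sum_apply]
    refine Finset.sum_congr rfl fun t _ => ?_
    split_ifs <;> rfl
  have hWE : ∀ X, W X ∈ AddSubmonoid.closure S := by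
    intro X
    refine AddSubmonoid.sum_mem _ fun t ht => ?_
    split_ifs
    · exact (hdec.1 t ht).2.1
    · exact (hdec.1 t ht).1
  have hWc : ∀ X z, W X z ≤ c z := by
    intro X z
    rw [hWz]
    by_cases h : ∃ s ∈ P, R s z < B s z
    · obtain ⟨s, hs, hs'⟩ := h
      refine le_trans (Finset.sum_le_sum fun t ht => ?_) ((hBz z).trans_le (hvc z))
      have := hcon t ht s hs z
      split_ifs
      · exact le_rfl
      · by_contra h1; exact this ⟨by omega, hs'⟩
    · push Not at h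
      refine le_trans (Finset.sum_le_sum fun t ht => ?_) ((hRz z).trans_le (huc z))
      have := h t ht
      split_ifs
      · exact this
      · exact le_rfl
  have hWD : ∀ X, ∑ z, W X z ≤ D := fun X => hD _ (hWE X) (hWc X)
  have hWsum : ∀ X, ∑ z, W X z + ∑ z, W (P \ X) z = 2 * D := by
    intro X
    rw [two_mul]
    nth_rw 1 [← huD]
    rw [← hvD, ← Finset.sum_add_distrib, ← Finset.sum_add_distrib]
    refine Finset.sum_congr rfl fun z _ => ?_
    rw [hWz, hWz, ← hRz, ← hBz, ← Finset.sum_add_distrib, ← Finset.sum_add_distrib]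
    refine Finset.sum_congr rfl fun t ht => ?_
    by_cases h : t ∈ X
    · rw [if_pos h, if_neg (by simp [h])]; ring
    · rw [if_neg h, if_pos (by simp [h, ht])]
  have hWD' : ∀ X, ∑ z, W X z = D := by
    intro X
    have := hWD X; have := hWD (P \ X); have := hWsum X
    omega
  have hsz : ∀ t ∈ P, ∑ z, R t z = ∑ z, B t z := by
    intro t ht
    have h1 := hWD' {t}
    have h2 := hWD' ∅
    have h3 : ∑ z, W {t} z + ∑ z, R t z = ∑ z, W ∅ z + ∑ z, B t z := by
      rw [← Finset.sum_add_distrib, ← Finset.sum_add_distrib]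
      refine Finset.sum_congr rfl fun z _ => ?_
      rw [hWz, hWz, ← Finset.add_sum_erase _ _ ht, ← Finset.add_sum_erase (a := t) _ _ ht,
        if_pos (by simp), if_neg (by simp)]
      have : ∑ x ∈ P.erase t, (if x ∈ ({t} : Finset ℕ) then B x z else R x z) =
          ∑ x ∈ P.erase t, if x ∈ (∅ : Finset ℕ) then B x z else R x z := by
        refine Finset.sum_congr rfl fun s hs => ?_
        rw [if_neg (by simpa using Finset.ne_of_mem_erase hs), if_neg (by simp)]
      rw [this]; ring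
    omega
  have hshape : ∀ t : ℕ, ∃ xy : V × V, t ∈ P → R t ≠ B t →
      ∀ z, (R t z : ℤ) - B t z = (if xy.1 = z then 1 else 0) - if xy.2 = z then 1 else 0 := by
    intro t
    by_cases h : t ∈ P ∧ R t ≠ B t
    · obtain ⟨x, y, hxy⟩ := shape (hdec.1 t h.1).2.2 (hsz t h.1) h.2
      exact ⟨(x, y), fun _ _ => hxy⟩
    · obtain ⟨v0⟩ := ‹Nonempty V›
      exact ⟨(v0, v0), fun h1 h2 => absurd ⟨h1, h2⟩ h⟩
  choose xy hxy using hshape
  have hne : ∀ t ∈ P, R t ≠ B t → (xy t).1 ≠ (xy t).2 := by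
    intro t ht h1 h2
    apply h1
    ext z
    have := hxy t ht h1 z
    rw [h2] at this
    omega
  have hform : ∀ X ⊆ P.filter (fun t => R t ≠ B t), ∀ z,
      W X z + (X.filter fun t => (xy t).1 = z).card =
      u z + (X.filter fun t => (xy t).2 = z).card := by
    intro X hX z
    have hXP : X ⊆ P := hX.trans (Finset.filter_subset _ _)
    have h1 : (W X z : ℤ) = u z + ∑ t ∈ X, ((B t z : ℤ) - R t z) := by
      rw [hWz, ← hRz, ← Finset.sum_sdiff hXP, ← Finset.sum_sdiff (f := fun t => R t z) hXP]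
      have h2 : ∑ t ∈ P \ X, (if t ∈ X then B t z else R t z) = ∑ t ∈ P \ X, R t z :=
        Finset.sum_congr rfl fun t ht => if_neg (Finset.mem_sdiff.1 ht).2
      have h3 : ∑ t ∈ X, (if t ∈ X then B t z else R t z) = ∑ t ∈ X, B t z :=
        Finset.sum_congr rfl fun t ht => if_pos ht
      rw [h2, h3, Finset.sum_sub_distrib]
      push_cast; ring
    have h4 : ∑ t ∈ X, ((B t z : ℤ) - R t z) =
        (X.filter fun t => (xy t).2 = z).card - (X.filter fun t => (xy t).1 = z).card := by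
      rw [Finset.card_filter, Finset.card_filter]
      push_cast
      rw [← Finset.sum_sub_distrib]
      refine Finset.sum_congr rfl fun t ht => ?_
      have h5 := Finset.mem_filter.1 (hX ht)
      have := hxy t h5.1 h5.2 z
      omega
    omega
  refine ⟨P.filter (fun t => R t ≠ B t), fun t => (xy t).1, fun t => (xy t).2, ?_, ?_, ?_⟩
  · intro t ht s hs h
    rw [Finset.mem_filter] at ht hs
    have h1 := hxy t ht.1 ht.2 (xy t).1
    have h2 := hxy s hs.1 hs.2 (xy t).1
    beta_reduce at h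
    rw [if_pos rfl, if_neg (hne t ht.1 ht.2).symm] at h1
    rw [if_pos h.symm, if_neg (fun h3 => hne s hs.1 hs.2 (h3.trans h))] at h2
    exact hcon t ht.1 s hs.1 (xy t).1 ⟨by omega, by omega⟩
  · intro z
    have h1 := hform _ (subset_refl _) z
    have h2 : W (P.filter fun t => R t ≠ B t) z = v z := by
      rw [hWz, ← hBz]
      refine Finset.sum_congr rfl fun t ht => ?_
      split_ifs with h
      · rfl
      · have : R t = B t := by
          by_contra h3
          exact h (Finset.mem_filter.2 ⟨ht, h3⟩)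
        rw [this]
    rw [h2] at h1
    exact h1.symm
  · intro X hX
    exact ⟨W X, ⟨hWE X, hWc X, hWD' X⟩, hform X hX⟩

end Pool.Agent.R690.Pm
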