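import Mathlib

set_option autoImplicit false

/-!
# Toric ideals, symmetric exchange binomials, bounded powers of edge ideals
-/

namespace Pool.Agent.R690.Pm

open MvPolynomial

variable {σ : Type*} (K : Type*) [Field K]

/-- The map `K[z_w : w ∈ Bs] → K[x]` sending `z_w` to the monomial with exponent vector `w`. -/
noncomputable def toricMap (Bs : Set (σ →₀ ℕ)) : MvPolynomial Bs K →ₐ[K] MvPolynomial σ K :=
  aeval fun w : Bs => monomial w.1 (1 : K)

/-- The ideal generated by the symmetric exchange binomials `z_u z_v - z_{u'} z_{v'}`, where for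
some `ξ` and `ρ` with `u_ξ > v_ξ` and `u_ρ < v_ρ` the vector `u'` is `u` with one unit moved from
`ξ` to `ρ` and `v'` is `v` with one unit moved from `ρ` to `ξ`, all four vectors in `Bs`. -/
noncomputable def exchangeIdeal (Bs : Set (σ →₀ ℕ)) : Ideal (MvPolynomial Bs K) :=
  Ideal.span {f | ∃ (u v u' v' : Bs) (ξ ρ : σ), v.1 ξ < u.1 ξ ∧ u.1 ρ < v.1 ρ ∧
    u'.1 + Finsupp.single ξ 1 = u.1 + Finsupp.single ρ 1 ∧
    v'.1 + Finsupp.single ρ 1 = v.1 + Finsupp.single ξ 1 ∧ f = X u * X v - X u' * X v'}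

/-- The edge ideal of a graph. -/
noncomputable def edgeIdeal (G : SimpleGraph σ) : Ideal (MvPolynomial σ K) :=
  Ideal.span {f | ∃ i j, G.Adj i j ∧ f = X i * X j}

/-- The ideal `I_c` generated by the monomials in `I` whose exponents are bounded by `c`. -/
noncomputable def boundedPart {K : Type*} [Field K] (c : σ → ℕ) (I : Ideal (MvPolynomial σ K)) :
    Ideal (MvPolynomial σ K) :=
  Ideal.span {f | ∃ a : σ →₀ ℕ, f = monomial a 1 ∧ monomial a 1 ∈ I ∧ ∀ i, a i ≤ c i}

/-- The exponent vectors of the minimal monomial generators of a monomial ideal `J`: the monomials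
in `J` not divisible by another monomial in `J`. -/
def minGens {K : Type*} [Field K] (J : Ideal (MvPolynomial σ K)) : Set (σ →₀ ℕ) :=
  {a | monomial a (1 : K) ∈ J ∧ ∀ b : σ →₀ ℕ, monomial b (1 : K) ∈ J → b ≤ a → b = a}

end Pool.Agent.R690.Pm
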