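import Pool.Agent.R690.Pm.TDefs
import Pool.Agent.R690.Pm.Conn2
import Pool.Agent.R690.Kos.Fin

set_option autoImplicit false
set_option linter.unusedSectionVars false

/-!
# Toric ideals of strongly base orderable polymatroids
-/

namespace Pool.Agent.R690.Pm

open Finset MvPolynomial

section

variable {σ : Type*} (K : Type*) [Field K] (Bs : Set (σ →₀ ℕ))

/-- The exponent vector of the image of a monomial. -/
noncomputable def phi : (Bs →₀ ℕ) →ₗ[ℕ] (σ →₀ ℕ) := Finsupp.linearCombination ℕ fun w : Bs => w.1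

theorem phi_single (w : Bs) : phi Bs (Finsupp.single w 1) = w.1 := by
  rw [phi, Finsupp.linearCombination_single, one_smul]

theorem toricMap_monomial (α : Bs →₀ ℕ) (c : K) :
    toricMap K Bs (monomial α c) = monomial (phi Bs α) c := by
  rw [toricMap, aeval_monomial, phi, Finsupp.linearCombination_apply, monomial_finsupp_sum_index,
    MvPolynomial.algebraMap_eq]
  congr 1
  refine Finset.prod_congr rfl fun w _ => ?_
  beta_reduce
  rw [monomial_pow, one_pow]

/-- The kernel is generated by binomials. -/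
theorem ker_le {J : Ideal (MvPolynomial Bs K)}
    (h : ∀ α β : Bs →₀ ℕ, phi Bs α = phi Bs β → (monomial α (1 : K)) - monomial β 1 ∈ J) :
    RingHom.ker (toricMap K Bs) ≤ J := by
  classical
  have hg : ∀ b : σ →₀ ℕ, ∃ β : Bs →₀ ℕ, ∀ α, phi Bs α = b → phi Bs β = b := by
    intro b
    by_cases hb : ∃ α, phi Bs α = b
    · obtain ⟨α, hα⟩ := hb
      exact ⟨α, fun _ _ => hα⟩
    · exact ⟨0, fun α hα => absurd ⟨α, hα⟩ hb⟩
  choose g hg using hg
  let s : MvPolynomial σ K →ₗ[K] (MvPolynomial Bs K ⧸ J) :=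
    (basisMonomials σ K).constr K fun b => Ideal.Quotient.mkₐ K J (monomial (g b) 1)
  have hs : ∀ b, s (monomial b 1) = Ideal.Quotient.mkₐ K J (monomial (g b) 1) := by
    intro b
    have := (basisMonomials σ K).constr_basis K
      (fun b => Ideal.Quotient.mkₐ K J (monomial (g b) (1 : K))) b
    rwa [coe_basisMonomials] at this
  have hcomp : s.comp (toricMap K Bs).toLinearMap = (Ideal.Quotient.mkₐ K J).toLinearMap := by
    refine (basisMonomials Bs K).ext fun α => ?_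
    rw [coe_basisMonomials]
    change s (toricMap K Bs (monomial α 1)) = Ideal.Quotient.mkₐ K J (monomial α 1)
    rw [toricMap_monomial, hs]
    rw [Ideal.Quotient.mkₐ_eq_mk]
    rw [Ideal.Quotient.eq]
    exact h _ _ (hg _ α rfl)
  intro f hf
  rw [RingHom.mem_ker] at hf
  have h1 : s (toricMap K Bs f) = Ideal.Quotient.mkₐ K J f := LinearMap.congr_fun hcomp f
  have h2 : toricMap K Bs f = 0 := hf
  rw [h2, map_zero, Ideal.Quotient.mkₐ_eq_mk] at h1
  exact Ideal.Quotient.eq_zero_iff_mem.1 h1.symm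

/-- Monomials as products over tuples. -/
theorem exists_tuple (α : Bs →₀ ℕ) : ∃ (k : ℕ) (U : Fin k → Bs),
    monomial α (1 : K) = ∏ l, X (U l) ∧ phi Bs α = ∑ l, (U l).1 := by
  obtain ⟨L, hL⟩ : ∃ L : List Bs, α = (L.map fun w => Finsupp.single w 1).sum := by
    induction α using Finsupp.induction_linear with
    | zero => exact ⟨[], rfl⟩
    | add f g hf hg =>
      obtain ⟨L, rfl⟩ := hf
      obtain ⟨M, rfl⟩ := hg
      exact ⟨L ++ M, by rw [List.map_append, List.sum_append]⟩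
    | single w m =>
      refine ⟨List.replicate m w, ?_⟩
      rw [List.map_replicate, List.sum_replicate, Finsupp.smul_single, smul_eq_mul, mul_one]
  refine ⟨L.length, fun l => L[l.1], ?_, ?_⟩
  · rw [Fin.prod_univ_fun_getElem L (fun w => (X w : MvPolynomial Bs K)), hL]
    clear hL
    induction L with
    | nil => rfl
    | cons w L ih =>
      rw [List.map_cons, List.sum_cons, List.map_cons, List.prod_cons, ← ih, X, monomial_mul,
        one_mul]
  · rw [Fin.sum_univ_fun_getElem L (fun w => w.1), hL, map_list_sum, List.map_map]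
    congr 1
    refine List.map_congr_left fun w _ => ?_
    exact phi_single Bs w

end

section

variable {V : Type*} [Fintype V] [DecidableEq V] (K : Type*) [Field K] {Bs : Set (V →₀ ℕ)}

theorem prod_two {M : Type*} [CommMonoid M] {k : ℕ} {i j : Fin k} (hij : i ≠ j) (f : Fin k → M) :
    ∏ l, f l = f i * f j * ∏ l ∈ (univ.erase i).erase j, f l := by
  rw [mul_assoc, Finset.mul_prod_erase _ _ (Finset.mem_erase.2 ⟨hij.symm, mem_univ j⟩),
    Finset.mul_prod_erase _ _ (mem_univ i)]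

/-- The toric ideal of a strongly base orderable homogeneous set is generated by the symmetric
exchange binomials. -/
theorem ker_eq (hB : SBO Bs) {D : ℕ} (hD : 0 < D) (hsz : ∀ w ∈ Bs, ∑ z, w z = D) :
    RingHom.ker (toricMap K Bs) = exchangeIdeal K Bs := by
  apply le_antisymm
  · refine ker_le K Bs fun α β hαβ => ?_
    obtain ⟨k, U, h1, h2⟩ := exists_tuple K Bs α
    obtain ⟨k', W, h3, h4⟩ := exists_tuple K Bs β
    rw [h1, h3]
    rw [h2, h4] at hαβ
    have hz : ∀ z, ∑ l, (U l).1 z = ∑ l, (W l).1 z := by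
      intro z
      have := DFunLike.congr_fun hαβ z
      rwa [Finsupp.coe_finsetSum, Finsupp.coe_finsetSum, Finset.sum_apply, Finset.sum_apply] at this
    have hk : k = k' := by
      have e1 : ∑ z, ∑ l, (U l).1 z = k * D := by
        rw [Finset.sum_comm, Finset.sum_congr rfl fun l _ => hsz _ (U l).2, Finset.sum_const,
          Finset.card_univ, Fintype.card_fin, smul_eq_mul]
      have e2 : ∑ z, ∑ l, (W l).1 z = k' * D := by
        rw [Finset.sum_comm, Finset.sum_congr rfl fun l _ => hsz _ (W l).2, Finset.sum_const,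
          Finset.card_univ, Fintype.card_fin, smul_eq_mul]
      rw [Finset.sum_congr rfl fun z _ => hz z, e2] at e1
      exact (Nat.eq_of_mul_eq_mul_right hD e1).symm
    subst hk
    let r : Setoid (Fin k → Bs) := Setoid.ker fun U =>
      Ideal.Quotient.mk (exchangeIdeal K Bs) (∏ l, X (U l))
    have hr : ∀ U U', Step U U' → r U U' := by
      rintro U U' ⟨i, j, hij, ξ, ρ, g1, g2, g3, g4, g5⟩
      change Ideal.Quotient.mk (exchangeIdeal K Bs) (∏ l, X (U l)) =
        Ideal.Quotient.mk (exchangeIdeal K Bs) (∏ l, X (U' l))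
      rw [Ideal.Quotient.eq, prod_two hij, prod_two hij (fun l => X (U' l))]
      have g6 : ∏ l ∈ (univ.erase i).erase j, (X (U' l) : MvPolynomial Bs K) =
          ∏ l ∈ (univ.erase i).erase j, X (U l) := by
        refine Finset.prod_congr rfl fun l hl => ?_
        simp only [Finset.mem_erase, mem_univ, and_true] at hl
        rw [g5 l hl.2 hl.1]
      rw [g6, ← sub_mul]
      refine Ideal.mul_mem_right _ _ (Ideal.subset_span ?_)
      exact ⟨U i, U j, U' i, U' j, ξ, ρ, g1, g2, g3, g4, rfl⟩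
    have := connected r hr hB hz
    exact Ideal.Quotient.eq.1 this
  · rw [exchangeIdeal, Ideal.span_le]
    rintro f ⟨u, v, u', v', ξ, ρ, -, -, h1, h2, rfl⟩
    rw [SetLike.mem_coe, RingHom.mem_ker, map_sub, map_mul, map_mul, sub_eq_zero]
    have hX : ∀ w : Bs, toricMap K Bs (X w) = monomial w.1 1 := by
      intro w
      rw [toricMap, aeval_X]
    rw [hX, hX, hX, hX, monomial_mul, monomial_mul]
    congr 2
    ext z
    have h3 := DFunLike.congr_fun h1 z
    have h4 := DFunLike.congr_fun h2 z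
    rw [Finsupp.coe_add, Pi.add_apply, Finsupp.coe_add, Pi.add_apply] at h3 h4 ⊢
    omega

end

/-! ### Bounded powers of edge ideals -/

section

variable {n : ℕ} (K : Type*) [Field K] (G : SimpleGraph (Fin n))

/-- The exponent vectors of the edges. -/
def Ed : Set (Fin n →₀ ℕ) := {u | ∃ i j, G.Adj i j ∧ u = Finsupp.single i 1 + Finsupp.single j 1}

theorem edgeIdeal_eq : edgeIdeal K G = Kos.monIdeal K (Ed G) := by
  rw [edgeIdeal, Kos.monIdeal]
  congr 1
  ext f
  constructor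
  · rintro ⟨i, j, h, rfl⟩
    exact ⟨_, ⟨i, j, h, rfl⟩, by simp [X, monomial_mul]⟩
  · rintro ⟨u, ⟨i, j, h, rfl⟩, rfl⟩
    exact ⟨i, j, h, by simp [X, monomial_mul]⟩

open Classical in
theorem mem_pow {q : ℕ} {a : Fin n →₀ ℕ} :
    monomial a (1 : K) ∈ edgeIdeal K G ^ q ↔ ∃ u ∈ Kos.pw (Ed G) q, u ≤ a := by
  rw [edgeIdeal_eq, Kos.monIdeal_pow, Kos.monIdeal, mem_ideal_span_monomial_image,
    support_monomial, if_neg one_ne_zero]
  simp

theorem boundedPart_eq (c : Fin n → ℕ) (I : Ideal (MvPolynomial (Fin n) K)) :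
    boundedPart c I = Ideal.span ((fun u => monomial u (1 : K)) ''
      {a | monomial a 1 ∈ I ∧ ∀ i, a i ≤ c i}) := by
  rw [boundedPart]
  congr 1
  ext f
  constructor
  · rintro ⟨a, rfl, h⟩
    exact ⟨a, h, rfl⟩
  · rintro ⟨a, h, rfl⟩
    exact ⟨a, rfl, h⟩

open Classical in
theorem mem_boundedPart {c : Fin n → ℕ} {I : Ideal (MvPolynomial (Fin n) K)} {b : Fin n →₀ ℕ} :
    monomial b (1 : K) ∈ boundedPart c I ↔
      ∃ a : Fin n →₀ ℕ, (monomial a (1 : K) ∈ I ∧ ∀ i, a i ≤ c i) ∧ a ≤ b := by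
  rw [boundedPart_eq, mem_ideal_span_monomial_image, support_monomial, if_neg one_ne_zero]
  simp

theorem sum_pw {q : ℕ} {u : Fin n →₀ ℕ} (hu : u ∈ Kos.pw (Ed G) q) : ∑ z, u z = 2 * q := by
  induction q generalizing u with
  | zero =>
    rw [Kos.pw, Set.mem_singleton_iff] at hu
    subst hu; simp
  | succ q ih =>
    obtain ⟨v, hv, g, ⟨i, j, -, rfl⟩, rfl⟩ := hu
    simp only [Finsupp.coe_add, Pi.add_apply, Finset.sum_add_distrib, ih hv]
    simp only [Finsupp.single_apply, Finset.sum_ite_eq, mem_univ, if_true]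
    ring

theorem sum_ed : ∀ e ∈ Ed G, ∑ z, e z = 2 := by
  rintro e ⟨i, j, -, rfl⟩
  simp only [Finsupp.coe_add, Pi.add_apply, Finset.sum_add_distrib]
  simp only [Finsupp.single_apply, Finset.sum_ite_eq, mem_univ, if_true]

theorem pw_add {E : Set (Fin n →₀ ℕ)} {a b : ℕ} {u v : Fin n →₀ ℕ} (hu : u ∈ Kos.pw E a)
    (hv : v ∈ Kos.pw E b) : u + v ∈ Kos.pw E (a + b) := by
  induction b generalizing v with
  | zero =>
    rw [Kos.pw, Set.mem_singleton_iff] at hv
    rw [hv, add_zero, add_zero]; exact hu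
  | succ b ih =>
    obtain ⟨v', hv', g, hg, rfl⟩ := hv
    rw [← add_assoc, ← add_assoc]
    exact ⟨_, ih hv', g, hg, rfl⟩

theorem mem_closure_of_pw {E : Set (Fin n →₀ ℕ)} {q : ℕ} {u : Fin n →₀ ℕ} (hu : u ∈ Kos.pw E q) :
    u ∈ AddSubmonoid.closure E := by
  induction q generalizing u with
  | zero =>
    rw [Kos.pw, Set.mem_singleton_iff] at hu
    subst hu; exact AddSubmonoid.zero_mem _
  | succ q ih =>
    obtain ⟨v, hv, g, hg, rfl⟩ := hu
    exact AddSubmonoid.add_mem _ (ih hv) (AddSubmonoid.subset_closure hg)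

theorem exists_pw {E : Set (Fin n →₀ ℕ)} {u : Fin n →₀ ℕ} (hu : u ∈ AddSubmonoid.closure E) :
    ∃ q, u ∈ Kos.pw E q := by
  induction hu using AddSubmonoid.closure_induction with
  | mem e he => exact ⟨1, 0, rfl, e, he, by rw [zero_add]⟩
  | zero => exact ⟨0, rfl⟩
  | add a b _ _ ha hb =>
    obtain ⟨p, hp⟩ := ha
    obtain ⟨q, hq⟩ := hb
    exact ⟨p + q, pw_add hp hq⟩

theorem boundedPart_ne_bot {c : Fin n → ℕ} {q : ℕ} :
    boundedPart c (edgeIdeal K G ^ q) ≠ ⊥ ↔ ∃ u ∈ Kos.pw (Ed G) q, ∀ i, u i ≤ c i := by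
  constructor
  · intro h
    by_contra hcon
    apply h
    rw [boundedPart_eq, Ideal.span_eq_bot]
    rintro f ⟨a, ⟨h1, h2⟩, rfl⟩
    exfalso
    rw [mem_pow] at h1
    obtain ⟨u, hu, hua⟩ := h1
    exact hcon ⟨u, hu, fun i => (hua i).trans (h2 i)⟩
  · rintro ⟨u, hu, hc⟩ h
    have h1 : monomial u (1 : K) ∈ boundedPart c (edgeIdeal K G ^ q) :=
      mem_boundedPart K |>.2 ⟨u, ⟨(mem_pow K G).2 ⟨u, hu, le_rfl⟩, hc⟩, le_rfl⟩
    rw [h, Ideal.mem_bot, monomial_eq_zero] at h1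
    exact one_ne_zero h1

theorem minGens_eq {c : Fin n → ℕ} {δ : ℕ} :
    minGens (boundedPart c (edgeIdeal K G ^ δ)) = Bas (AddSubmonoid.closure (Ed G)) c (2 * δ) := by
  have heq : ∀ {u v : Fin n →₀ ℕ}, u ≤ v → ∑ z, u z = ∑ z, v z → u = v := by
    intro u v h1 h2
    ext z
    exact (Finset.sum_eq_sum_iff_of_le (s := univ) fun l _ => h1 l).1 h2 z (mem_univ _)
  ext a
  constructor
  · rintro ⟨h1, h2⟩
    obtain ⟨a', ⟨h3, h4⟩, h5⟩ := (mem_boundedPart K).1 h1
    obtain ⟨u, hu, h6⟩ := (mem_pow K G).1 h3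
    have h7 : ∀ i, u i ≤ c i := fun i => (h6 i).trans (h4 i)
    have h8 := h2 u ((mem_boundedPart K).2 ⟨u, ⟨(mem_pow K G).2 ⟨u, hu, le_rfl⟩, h7⟩, le_rfl⟩)
      (h6.trans h5)
    subst h8
    exact ⟨mem_closure_of_pw hu, h7, sum_pw G hu⟩
  · rintro ⟨h1, h2, h3⟩
    obtain ⟨q, hq⟩ := exists_pw h1
    have h4 := sum_pw G hq
    obtain rfl : q = δ := by omega
    refine ⟨(mem_boundedPart K).2 ⟨a, ⟨(mem_pow K G).2 ⟨a, hq, le_rfl⟩, h2⟩, le_rfl⟩, ?_⟩
    intro b hb hba
    obtain ⟨a', ⟨h5, h6⟩, h7⟩ := (mem_boundedPart K).1 hb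
    obtain ⟨u, hu, h8⟩ := (mem_pow K G).1 h5
    have h9 : u = a := heq (h8.trans (h7.trans hba)) (by rw [h3, sum_pw G hu])
    exact le_antisymm hba (h9 ▸ (h8.trans h7))

/-- The main theorem. -/
theorem main (hG : ∃ i j, G.Adj i j) (c : Fin n → ℕ) (hc : ∀ i, 0 < c i) :
    ∃ δ, IsGreatest {q | boundedPart c (edgeIdeal K G ^ q) ≠ ⊥} δ ∧
      RingHom.ker (toricMap K (minGens (boundedPart c (edgeIdeal K G ^ δ)))) =
        exchangeIdeal K (minGens (boundedPart c (edgeIdeal K G ^ δ))) := by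
  obtain ⟨i, j, hij⟩ := hG
  have h1 : 1 ∈ {q | boundedPart c (edgeIdeal K G ^ q) ≠ ⊥} := by
    refine (boundedPart_ne_bot K G).2 ⟨Finsupp.single i 1 + Finsupp.single j 1,
      ⟨0, rfl, _, ⟨i, j, hij, rfl⟩, (zero_add _).symm⟩, fun l => ?_⟩
    rw [Finsupp.coe_add, Pi.add_apply, Finsupp.single_apply, Finsupp.single_apply]
    have := hc l
    have := hij.ne
    split_ifs with h2 h3
    · exact absurd (h2.trans h3.symm) this
    all_goals omega
  have hle : ∀ q ∈ {q | boundedPart c (edgeIdeal K G ^ q) ≠ ⊥}, 2 * q ≤ ∑ i, c i := by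
    intro q hq
    obtain ⟨u, hu, huc⟩ := (boundedPart_ne_bot K G).1 hq
    rw [← sum_pw G hu]
    exact Finset.sum_le_sum fun i _ => huc i
  have hbdd : BddAbove {q | boundedPart c (edgeIdeal K G ^ q) ≠ ⊥} :=
    ⟨∑ i, c i, fun q hq => by have := hle q hq; omega⟩
  have hgr : IsGreatest {q | boundedPart c (edgeIdeal K G ^ q) ≠ ⊥}
      (sSup {q | boundedPart c (edgeIdeal K G ^ q) ≠ ⊥}) :=
    ⟨Nat.sSup_mem ⟨1, h1⟩ hbdd, fun q hq => le_csSup hbdd hq⟩
  set δ := sSup {q | boundedPart c (edgeIdeal K G ^ q) ≠ ⊥} with hδ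
  refine ⟨δ, hgr, ?_⟩
  have hδ1 : 1 ≤ δ := hgr.2 h1
  have : Nonempty (Fin n) := ⟨i⟩
  rw [minGens_eq]
  refine ker_eq K (sbo (sum_ed G) c (2 * δ) ?_) (D := 2 * δ) (by omega) (fun w hw => hw.2.2)
  intro w hw hwc
  obtain ⟨q, hq⟩ := exists_pw hw
  rw [sum_pw G hq]
  have := hgr.2 ((boundedPart_ne_bot K G).2 ⟨w, hq, hwc⟩)
  omega

end

end Pool.Agent.R690.Pm
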